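import Pool.Agent.W680.WH.Stm2
import Pool.Agent.W428.WH.Lex

/-!
# Project WHH, strong continuity: part LSM, small lifts
-/

set_option autoImplicit false

open scoped ComplexConjugate InnerProductSpace
open ContinuousLinearMap Filter

namespace Pool.Agent.W179.WH.Lsm

open Pool.Agent.W680.WH

theorem main (h1 : S_UNIC) (h2 : S_DRC) (h4 : S_BLA) (h5 : S_BLM) (h6 : S_INV) (h8 : S_OPA) :
    S_LSM := by
  intro ε hε
  obtain ⟨δ1, p1, q1, k1⟩ := h1 ε hε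
  obtain ⟨δ2, p2, q2, k2⟩ := h2 ε hε
  refine ⟨min δ1 δ2, lt_min p1 p2, (min_le_left _ _).trans_lt q1, ?_⟩
  intro r ρ hr0 hr1 hc ha
  obtain ⟨V, hV1, hV2, hV3, hV4, hV5, hV6⟩ := k1 r hr0 (hr1.trans_le (min_le_left _ _))
  obtain ⟨d, hd1, hd2, hd3, hd4⟩ := k2 r hr0 (hr1.trans_le (min_le_right _ _))
  exact ⟨V, d, Pool.Agent.W428.WH.Lex.hyper h4 h5 h6 h8 r hr0
    (hr1.trans_le ((min_le_left _ _).trans q1.le)) V d hV1 hV2 hV3 hV4 hd1 hd2 hd4 ρ hc ha,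
    hV5, hV6, hd3⟩

end Pool.Agent.W179.WH.Lsm
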